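import Pool.Agent.H138R3.SFFamily

/-!
# An irresolvable self-filling family of closed subsets of the Baire space

Both questions of the problem are answered in the negative: there is a self-filling family of
closed (in particular Borel) subsets of `ℕ → ℕ` that is not resolvable.
-/

namespace Pool.Agent.Results.MP_0ab388_gt.ClosedIrresolvable

/-- `A` fills `B`: for every `U ∈ B` and `x ∈ U` there is `W ∈ A`, `W ≠ U`, with
`x ∈ W ⊆ U`. -/
def Fills {X : Type} (A B : Set (Set X)) : Prop :=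
  ∀ U ∈ B, ∀ x ∈ U, ∃ W ∈ A, W ≠ U ∧ x ∈ W ∧ W ⊆ U

/-- A family that fills itself. -/
def SelfFilling {X : Type} (F : Set (Set X)) : Prop := Fills F F

/-- `F` is a disjoint union of two subfamilies each of which fills `F`. -/
def Resolvable {X : Type} (F : Set (Set X)) : Prop :=
  ∃ F₀ F₁ : Set (Set X), F₀ ∪ F₁ = F ∧ F₀ ∩ F₁ = ∅ ∧ Fills F₀ F ∧ Fills F₁ F

open Pool.Agent.H138R3

/-- There is a self-filling family of closed subsets of the Baire space which is not
resolvable. -/
theorem result : ∃ F : Set (Set (ℕ → ℕ)),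
    (∀ U ∈ F, IsClosed U) ∧ SelfFilling F ∧ ¬ Resolvable F := by
  classical
  refine ⟨Set.range V, ?_, ?_, ?_⟩
  · rintro _ ⟨t, rfl⟩
    exact V_closed t
  · rintro _ ⟨t, rfl⟩ y hy
    obtain ⟨s, h1, h2, h3⟩ := V_fill t y hy
    exact ⟨V s, ⟨s, rfl⟩, h1, h2, h3⟩
  · rintro ⟨F₀, F₁, hU, hD, h0, h1⟩
    obtain ⟨r, y, hy, hbad⟩ := V_bad (fun t => decide (V t ∈ F₀))
    by_cases hr : V r ∈ F₀
    · obtain ⟨W, hW, -, hyW, hWr⟩ := h1 (V r) ⟨r, rfl⟩ y hy
      have hWF : W ∈ Set.range V := by rw [← hU]; exact Or.inr hW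
      obtain ⟨t, rfl⟩ := hWF
      have := hbad t hyW hWr
      simp only [hr, decide_true, decide_eq_true_eq] at this
      have hmem : V t ∈ F₀ ∩ F₁ := ⟨this, hW⟩
      rw [hD] at hmem
      exact hmem
    · obtain ⟨W, hW, -, hyW, hWr⟩ := h0 (V r) ⟨r, rfl⟩ y hy
      have hWF : W ∈ Set.range V := by rw [← hU]; exact Or.inl hW
      obtain ⟨t, rfl⟩ := hWF
      have := hbad t hyW hWr
      simp only [hr, decide_false, decide_eq_false_iff_not] at this
      exact this hW

end Pool.Agent.Results.MP_0ab388_gt.ClosedIrresolvable
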